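import Mathlib
import Pool.Agent.Helper20.GT.Stm

/-!
# GT NET: the sets `base L`, singletons, affine images and unions have small nets
-/

set_option autoImplicit false

open Finset Filter Topology
open scoped Classical
open Pool.Agent.Helper20.GT

namespace Pool.Agent.Helper38.GT

theorem one_le_rpow_neg {δ ε : ℝ} (h0 : 0 < δ) (h1 : δ ≤ 1) (hε : 0 < ε) : 1 ≤ δ ^ (-ε) :=
  Real.one_le_rpow_of_pos_of_le_one_of_nonpos h0 h1 (by linarith)

theorem net_base (L : ℝ) (hL : 1 < L) : NET (base L) := by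
  intro ε hε
  have hlog : 0 < Real.log L := Real.log_pos hL
  refine ⟨2 / (ε * Real.log L) + 5, ?_, ?_⟩
  · have : 0 < 2 / (ε * Real.log L) := by positivity
    linarith
  intro δ h0 h1
  set J : ℕ := ⌈Real.log (1 / δ) / Real.log L⌉₊ with hJ
  have hinv : 1 ≤ 1 / δ := by
    rw [le_div_iff₀ h0]; linarith
  have hlog0 : 0 ≤ Real.log (1 / δ) := Real.log_nonneg hinv
  have hJ1 : Real.log (1 / δ) / Real.log L ≤ J := Nat.le_ceil _
  have hJ2 : (J : ℝ) < Real.log (1 / δ) / Real.log L + 1 := Nat.ceil_lt_add_one (by positivity)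
  have hLpos : 0 < L := by linarith
  have hLJ : 1 / δ ≤ L ^ J := by
    have h2 : Real.log (1 / δ) ≤ J * Real.log L := by
      rwa [div_le_iff₀ hlog] at hJ1
    have h3 : Real.log (1 / δ) ≤ Real.log (L ^ J) := by
      rw [Real.log_pow]; exact h2
    exact (Real.log_le_log_iff (by positivity) (by positivity)).1 h3
  have hLJ' : 1 / L ^ J ≤ δ := by
    rw [div_le_iff₀ (by positivity)]
    rw [div_le_iff₀ h0] at hLJ
    linarith
  refine ⟨insert 0 ((Finset.range (J + 1)).image (fun j => 1 / L ^ j) ∪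
    (Finset.range (J + 1)).image (fun j => -(1 / L ^ j))), ?_, ?_, ?_⟩
  · have hc : (insert (0 : ℝ) ((Finset.range (J + 1)).image (fun j => 1 / L ^ j) ∪
        (Finset.range (J + 1)).image (fun j => -(1 / L ^ j)))).card ≤ 2 * J + 3 := by
      have a1 := Finset.card_insert_le (0 : ℝ) ((Finset.range (J + 1)).image (fun j => 1 / L ^ j) ∪
        (Finset.range (J + 1)).image (fun j => -(1 / L ^ j)))
      have a2 := Finset.card_union_le ((Finset.range (J + 1)).image (fun j => 1 / L ^ j))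
        ((Finset.range (J + 1)).image (fun j => -(1 / L ^ j)))
      have a3 := Finset.card_image_le (s := Finset.range (J + 1)) (f := fun j => 1 / L ^ j)
      have a4 := Finset.card_image_le (s := Finset.range (J + 1)) (f := fun j => -(1 / L ^ j))
      rw [Finset.card_range] at a3 a4
      omega
    have hc' : ((insert (0 : ℝ) ((Finset.range (J + 1)).image (fun j => 1 / L ^ j) ∪
        (Finset.range (J + 1)).image (fun j => -(1 / L ^ j)))).card : ℝ) ≤ 2 * J + 3 := by
      exact_mod_cast hc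
    have h4 : Real.log (1 / δ) ≤ (1 / δ) ^ ε / ε := Real.log_le_rpow_div (by positivity) hε
    have h5 : (1 / δ) ^ ε = δ ^ (-ε) := by
      rw [one_div, Real.inv_rpow h0.le, Real.rpow_neg h0.le]
    rw [h5] at h4
    have h6 : 1 ≤ δ ^ (-ε) := one_le_rpow_neg h0 h1 hε
    have h7 : Real.log (1 / δ) / Real.log L ≤ (δ ^ (-ε) / ε) / Real.log L :=
      div_le_div_of_nonneg_right h4 hlog.le
    have h8 : (δ ^ (-ε) / ε) / Real.log L = 1 / (ε * Real.log L) * δ ^ (-ε) := by
      field_simp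
    rw [h8] at h7
    have h9 : (2 / (ε * Real.log L) + 5) * δ ^ (-ε) =
        2 * (1 / (ε * Real.log L) * δ ^ (-ε)) + 5 * δ ^ (-ε) := by ring
    rw [h9]
    linarith
  · intro t ht
    rw [Finset.mem_coe, Finset.mem_insert, Finset.mem_union, Finset.mem_image,
      Finset.mem_image] at ht
    rcases ht with h | ⟨j, _, h⟩ | ⟨j, _, h⟩
    · exact Or.inl h
    · exact Or.inr ⟨j, Or.inl h.symm⟩
    · exact Or.inr ⟨j, Or.inr h.symm⟩
  · intro q hq
    rcases hq with h | ⟨j, h⟩
    · refine ⟨0, Finset.mem_insert_self _ _, ?_⟩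
      rw [h]; simpa using h0.le
    · by_cases hj : j < J + 1
      · refine ⟨q, ?_, by simpa using h0.le⟩
        rw [Finset.mem_insert, Finset.mem_union, Finset.mem_image, Finset.mem_image]
        rcases h with h | h
        · exact Or.inr (Or.inl ⟨j, Finset.mem_range.2 hj, h.symm⟩)
        · exact Or.inr (Or.inr ⟨j, Finset.mem_range.2 hj, h.symm⟩)
      · refine ⟨0, Finset.mem_insert_self _ _, ?_⟩
        have hJj : J ≤ j := by omega
        have h10 : 1 / L ^ j ≤ 1 / L ^ J :=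
          one_div_le_one_div_of_le (by positivity) (pow_le_pow_right₀ hL.le hJj)
        have h11 : (0 : ℝ) < 1 / L ^ j := by positivity
        rcases h with h | h
        · rw [h, sub_zero, abs_of_pos h11]; linarith
        · rw [h, sub_zero, abs_neg, abs_of_pos h11]; linarith

theorem net_singleton (a : ℝ) : NET {a} := by
  intro ε hε
  refine ⟨1, le_refl _, ?_⟩
  intro δ h0 h1
  refine ⟨{a}, ?_, ?_, ?_⟩
  · have := one_le_rpow_neg h0 h1 hε
    simpa using this
  · simp
  · intro q hq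
    refine ⟨a, by simp, ?_⟩
    rw [Set.mem_singleton_iff] at hq
    rw [hq]; simpa using h0.le

theorem net_affine (Q : Set ℝ) (a b : ℝ) (hQ : NET Q) : NET ((fun q => a + b * q) '' Q) := by
  intro ε hε
  obtain ⟨C, hC1, hC⟩ := hQ ε hε
  have hb : 1 ≤ |b| + 1 := by have := abs_nonneg b; linarith
  have hb0 : 0 < |b| + 1 := by linarith
  have hbe : 1 ≤ (|b| + 1) ^ ε := Real.one_le_rpow hb hε.le
  refine ⟨C * (|b| + 1) ^ ε, ?_, ?_⟩
  · nlinarith
  intro δ h0 h1
  have hd0 : 0 < δ / (|b| + 1) := by positivity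
  have hd1 : δ / (|b| + 1) ≤ 1 := by
    rw [div_le_iff₀ hb0]; linarith
  obtain ⟨F, hF1, hF2, hF3⟩ := hC (δ / (|b| + 1)) hd0 hd1
  refine ⟨F.image (fun q => a + b * q), ?_, ?_, ?_⟩
  · have h2 : ((F.image (fun q => a + b * q)).card : ℝ) ≤ F.card := by
      exact_mod_cast Finset.card_image_le
    have h3 : (δ / (|b| + 1)) ^ (-ε) = (|b| + 1) ^ ε * δ ^ (-ε) := by
      rw [Real.div_rpow h0.le hb0.le, Real.rpow_neg hb0.le, div_inv_eq_mul, mul_comm]
    rw [h3] at hF1
    calc ((F.image (fun q => a + b * q)).card : ℝ) ≤ F.card := h2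
      _ ≤ C * ((|b| + 1) ^ ε * δ ^ (-ε)) := hF1
      _ = C * (|b| + 1) ^ ε * δ ^ (-ε) := by ring
  · intro t ht
    rw [Finset.mem_coe, Finset.mem_image] at ht
    obtain ⟨q, hq, rfl⟩ := ht
    exact ⟨q, hF2 hq, rfl⟩
  · rintro _ ⟨q, hq, rfl⟩
    obtain ⟨p, hp, hqp⟩ := hF3 q hq
    refine ⟨a + b * p, Finset.mem_image_of_mem _ hp, ?_⟩
    have h4 : (a + b * q) - (a + b * p) = b * (q - p) := by ring
    show |(a + b * q) - (a + b * p)| ≤ δ
    rw [h4, abs_mul]
    rw [le_div_iff₀ hb0] at hqp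
    have h5 : 0 ≤ |q - p| := abs_nonneg _
    nlinarith

theorem net_union (Q R : Set ℝ) (hQ : NET Q) (hR : NET R) : NET (Q ∪ R) := by
  intro ε hε
  obtain ⟨C, hC1, hC⟩ := hQ ε hε
  obtain ⟨D, hD1, hD⟩ := hR ε hε
  refine ⟨C + D, by linarith, ?_⟩
  intro δ h0 h1
  obtain ⟨F, hF1, hF2, hF3⟩ := hC δ h0 h1
  obtain ⟨G, hG1, hG2, hG3⟩ := hD δ h0 h1
  refine ⟨F ∪ G, ?_, ?_, ?_⟩
  · have h2 : ((F ∪ G).card : ℝ) ≤ F.card + G.card := by
      exact_mod_cast Finset.card_union_le F G
    calc ((F ∪ G).card : ℝ) ≤ F.card + G.card := h2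
      _ ≤ C * δ ^ (-ε) + D * δ ^ (-ε) := add_le_add hF1 hG1
      _ = (C + D) * δ ^ (-ε) := by ring
  · intro t ht
    rw [Finset.mem_coe, Finset.mem_union] at ht
    rcases ht with h | h
    · exact Or.inl (hF2 h)
    · exact Or.inr (hG2 h)
  · rintro q (hq | hq)
    · obtain ⟨p, hp, h⟩ := hF3 q hq
      exact ⟨p, Finset.mem_union_left _ hp, h⟩
    · obtain ⟨p, hp, h⟩ := hG3 q hq
      exact ⟨p, Finset.mem_union_right _ hp, h⟩

theorem s_net : S_NET := ⟨net_base, net_singleton, net_affine, net_union⟩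

end Pool.Agent.Helper38.GT

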